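import Mathlib
import Pool.Agent.Mg.S12429.G982280

/-!
Degree bound for semiregular relative difference sets in abelian groups G with
2G ≤ N ≤ G[2].
-/

set_option autoImplicit false
set_option synthInstance.maxSize 1024

namespace Pool.Agent.Results.MP_f5a786_co.SemiregularDegree

open Finset Pool.Agent.MP_f5a786_co

/-- The group (Z/4)^k × (Z/2)^l × (Z/2)^j. -/
abbrev Grp (k l j : ℕ) : Type := (Fin k → ZMod 4) × (Fin l → ZMod 2) × (Fin j → ZMod 2)

/-- The forbidden subgroup 2(Z/4)^k × 0 × (Z/2)^j. -/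
def forb (k l j : ℕ) : AddSubgroup (Grp k l j) where
  carrier := {g | (∀ t, 2 * g.1 t = 0) ∧ g.2.1 = 0}
  zero_mem' := ⟨fun _ => mul_zero _, rfl⟩
  add_mem' := fun {a b} ha hb =>
    ⟨fun t => by rw [Prod.fst_add, Pi.add_apply, mul_add, ha.1 t, hb.1 t, add_zero],
      by rw [Prod.snd_add, Prod.fst_add, ha.2, hb.2, add_zero]⟩
  neg_mem' := fun {a} ha =>
    ⟨fun t => by rw [Prod.fst_neg, Pi.neg_apply, mul_neg, ha.1 t, neg_zero],
      by rw [Prod.snd_neg, Prod.fst_neg, ha.2, neg_zero]⟩

/-- No nonzero element of `N` is a difference of two elements of `D`, and every element outside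
`N` is such a difference in exactly `lam` ways. -/
def IsRelDiff {G : Type} [AddCommGroup G] [DecidableEq G] (N : AddSubgroup G) (D : Finset G)
    (lam : ℕ) : Prop :=
  (∀ d ∈ D, ∀ d' ∈ D, d - d' ∈ N → d = d') ∧
    ∀ g, g ∉ N → ((D ×ˢ D).filter fun p => p.1 - p.2 = g).card = lam

/-- The coordinates of the class of `g` modulo the forbidden subgroup: the low binary digits of
the Z/4-coordinates and the middle coordinates. -/
def low {k l j : ℕ} (g : Grp k l j) : Fin k ⊕ Fin l → ZMod 2 :=
  Sum.elim (fun t => ((g.1 t).val : ZMod 2)) g.2.1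

/-- The remaining coordinates of `g`: the high binary digits of the Z/4-coordinates and the
last coordinates. -/
def top {k l j : ℕ} (g : Grp k l j) : Fin k ⊕ Fin j → ZMod 2 :=
  Sum.elim (fun t => (((g.1 t).val / 2 : ℕ) : ZMod 2)) g.2.2

/-- Weight one for the variables coming from Z/4, weight two for those coming from Z/2. -/
def wt (k l : ℕ) : Fin k ⊕ Fin l → ℕ := Sum.elim (fun _ => 1) (fun _ => 2)

variable {k l j : ℕ}

lemma val_add_two : ∀ a b : ZMod 4,
    (((a + b).val : ℕ) : ZMod 2) = (a.val : ZMod 2) + (b.val : ZMod 2) := by decide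

lemma val_eq_iff : ∀ a b : ZMod 4,
    ((a.val : ZMod 2) = (b.val : ZMod 2)) ↔ 2 * (a - b) = 0 := by decide

lemma low_add (g h : Grp k l j) : low (g + h) = low g + low h := by
  funext t
  rcases t with t | t
  · exact val_add_two _ _
  · rfl

lemma low_eq_iff (g h : Grp k l j) : low g = low h ↔ g - h ∈ forb k l j := by
  constructor
  · intro e
    refine ⟨fun t => (val_eq_iff _ _).1 (congrFun e (Sum.inl t)), ?_⟩
    funext t
    exact sub_eq_zero.2 (congrFun e (Sum.inr t))
  · rintro ⟨h1, h2⟩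
    funext t
    rcases t with t | t
    · exact (val_eq_iff _ _).2 (h1 t)
    · exact sub_eq_zero.1 (congrFun h2 t)

lemma dbl_add : ∀ a b : ZMod 2, dbl (a + b) = dbl a + dbl b := by decide

lemma dbl_sub : ∀ a b : ZMod 2, dbl (a - b) = dbl a - dbl b := by decide

/-- The embedding into a power of Z/4. -/
def emb (g : Grp k l j) : Fin k ⊕ Fin l ⊕ Fin j → ZMod 4 :=
  Sum.elim g.1 (Sum.elim (fun t => dbl (g.2.1 t)) fun t => dbl (g.2.2 t))

lemma emb_add (g h : Grp k l j) : emb (g + h) = emb g + emb h := by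
  funext t
  rcases t with t | t | t
  · rfl
  · exact dbl_add _ _
  · exact dbl_add _ _

lemma emb_sub (g h : Grp k l j) : emb (g - h) = emb g - emb h := by
  rw [eq_sub_iff_add_eq, ← emb_add, sub_add_cancel]

lemma emb_zero : emb (0 : Grp k l j) = 0 := by
  rw [← sub_self (0 : Grp k l j), emb_sub, sub_self]

lemma chi_add {ι : Type} [Fintype ι] (u g h : ι → ZMod 4) :
    chi u (g + h) = chi u g * chi u h := by
  unfold chi
  rw [← prod_mul_distrib]
  refine prod_congr rfl fun t _ => ?_
  rw [← ee_add, Pi.add_apply, mul_add]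

/-- The indicator of the characters that are trivial on the forbidden subgroup, coordinatewise. -/
def tr (t : Fin k ⊕ Fin l ⊕ Fin j) (a : ZMod 4) : ZMod 2 :=
  Sum.elim (fun _ => ev a) (Sum.elim (fun _ => 1) fun _ => ev a) t

lemma ee_even : ∀ u a : ZMod 4, ev u = 1 → 2 * a = 0 → ee (u * a) = 1 := by decide

lemma ee_dbl : ∀ (u : ZMod 4) (a : ZMod 2), ev u = 1 → ee (u * dbl a) = 1 := by decide

lemma ee_odd : ∀ u : ZMod 4, ev u ≠ 1 → ee (u * 2) ≠ 1 := by decide

lemma chi_single {ι : Type} [Fintype ι] [DecidableEq ι] (u : ι → ZMod 4) (t : ι) (a : ZMod 4) :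
    chi u (Pi.single t a) = ee (u t * a) := by
  unfold chi
  rw [prod_eq_single t]
  · simp
  · intro s _ hs
    simp [hs, ee_zero]
  · simp

lemma triv_of (u : Fin k ⊕ Fin l ⊕ Fin j → ZMod 4) (hu : ∀ t, tr t (u t) = 1) (g : Grp k l j)
    (hg : g ∈ forb k l j) : chi u (emb g) = 1 := by
  refine prod_eq_one fun t _ => ?_
  rcases t with t | t | t
  · exact ee_even _ _ (hu (Sum.inl t)) (hg.1 t)
  · have : emb g (Sum.inr (Sum.inl t)) = 0 := by
      show dbl (g.2.1 t) = 0
      rw [hg.2]; rfl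
    rw [this, mul_zero, ee_zero]
  · exact ee_dbl _ _ (hu (Sum.inr (Sum.inr t)))

lemma nontriv_of (u : Fin k ⊕ Fin l ⊕ Fin j → ZMod 4) {t : Fin k ⊕ Fin l ⊕ Fin j}
    (hu : tr t (u t) ≠ 1) : ∃ g ∈ forb k l j, chi u (emb g) ≠ 1 := by
  rcases t with t | t | t
  · refine ⟨(Pi.single t 2, 0, 0), ⟨fun s => ?_, rfl⟩, ?_⟩
    · by_cases h : s = t
      · subst h; simp only [Pi.single_eq_same]; decide
      · simp [h]
    · have : emb ((Pi.single t 2, 0, 0) : Grp k l j) = Pi.single (Sum.inl t) 2 := by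
        funext s
        rcases s with s | s | s <;> simp [emb, dbl, Pi.single_apply]
      rw [this, chi_single]
      exact ee_odd _ hu
  · exact absurd rfl hu
  · refine ⟨(0, 0, Pi.single t 1), ⟨fun s => by simp, rfl⟩, ?_⟩
    have : emb ((0, 0, Pi.single t 1) : Grp k l j) = Pi.single (Sum.inr (Sum.inr t)) 2 := by
      funext s
      rcases s with s | s | s
      · simp [emb]
      · simp [emb, dbl]
      · by_cases h : s = t <;> simp [emb, dbl, h]
    rw [this, chi_single]
    exact ee_odd _ hu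

variable {D : Finset (Grp k l j)} {lam : ℕ}

open Classical in
lemma count (hD : IsRelDiff (forb k l j) D lam) (F : Grp k l j → GaussianInt) :
    ∑ d ∈ D, ∑ d' ∈ D, F (d - d') =
      D.card * F 0 + lam * ∑ g, if g ∈ forb k l j then 0 else F g := by
  rw [← sum_product', ← sum_fiberwise (D ×ˢ D) (fun p => p.1 - p.2), mul_sum]
  have h1 : (D.card : GaussianInt) * F 0 =
      ∑ g : Grp k l j, if g = 0 then (D.card : GaussianInt) * F 0 else 0 := by simp
  rw [h1, ← sum_add_distrib]
  refine sum_congr rfl fun g _ => ?_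
  rw [sum_congr rfl (g := fun _ => F g) fun p hp => by rw [(mem_filter.1 hp).2], sum_const,
    nsmul_eq_mul]
  by_cases h0 : g = 0
  · subst h0
    have : (D ×ˢ D).filter (fun p => p.1 - p.2 = 0) = D.diag := by
      ext p
      simp only [mem_filter, mem_product, mem_diag, sub_eq_zero]
      constructor
      · rintro ⟨⟨h, -⟩, h'⟩; exact ⟨h, h'⟩
      · rintro ⟨h, h'⟩; exact ⟨⟨h, h' ▸ h⟩, h'⟩
    rw [this, diag_card]
    simp
  · by_cases hg : g ∈ forb k l j
    · have : (D ×ˢ D).filter (fun p => p.1 - p.2 = g) = ∅ := by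
        refine filter_eq_empty_iff.2 fun p hp e => h0 ?_
        rw [mem_product] at hp
        rw [← e, hD.1 _ hp.1 _ hp.2 (e ▸ hg), sub_self]
      simp [this, h0, hg]
    · simp [hD.2 g hg, h0, hg]

lemma low_inj (hD : IsRelDiff (forb k l j) D lam) : Set.InjOn low (D : Set (Grp k l j)) :=
  fun d hd d' hd' e => hD.1 d hd d' hd' ((low_eq_iff _ _).1 e)

lemma char_val (hc : D.card = 2 ^ (k + l)) (hD : IsRelDiff (forb k l j) D lam) (hn : 0 < k + l)
    (u : Fin k ⊕ Fin l ⊕ Fin j → ZMod 4) :
    ∃ w, ∑ d ∈ D, chi u (emb d) = pp ^ (k + l) * w ∧ par w = 1 - ∏ t, tr t (u t) := by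
  classical
  by_cases hu : ∀ t, tr t (u t) = 1
  · have hp : 1 - ∏ t, tr t (u t) = 0 := by simp [hu]
    rw [hp]
    by_cases h1 : ∀ g : Grp k l j, chi u (emb g) = 1
    · refine ⟨(star pp) ^ (k + l), ?_, ?_⟩
      · have h2 : pp * star pp = 2 := by decide
        rw [← mul_pow, h2]
        simp [h1, hc]
      · have h3 : par (star pp) = 0 := by rw [par_apply]; decide
        rw [map_pow, h3, zero_pow hn.ne']
    · push Not at h1
      obtain ⟨h, hh⟩ := h1
      refine ⟨0, ?_, map_zero _⟩
      have himg : D.image low = univ := by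
        apply eq_univ_of_card
        rw [card_image_of_injOn (low_inj hD), hc]
        simp
      have hs : ∀ x, ∃ d ∈ D, low d = x := fun x => mem_image.1 (himg ▸ mem_univ x)
      choose s hs1 hs2 using hs
      have h2 : ∑ d ∈ D, chi u (emb d) = ∑ x, chi u (emb (s x)) := by
        rw [← himg, sum_image (low_inj hD)]
        refine sum_congr rfl fun d hd => ?_
        rw [low_inj hD (hs1 _) hd (hs2 _)]
      have h3 : ∑ x, chi u (emb (s x)) = (∑ x, chi u (emb (s x))) * chi u (emb h) := by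
        rw [sum_mul, ← Equiv.sum_comp (Equiv.addRight (low h))]
        refine sum_congr rfl fun x _ => ?_
        have h4 := triv_of u hu _ ((low_eq_iff (s (x + low h)) (s x + h)).1
          (by rw [low_add, hs2, hs2]))
        rw [← chi_add, ← emb_add, Equiv.coe_addRight,
          ← sub_add_cancel (s (x + low h)) (s x + h), emb_add _ (s x + h), chi_add, h4, one_mul]
      rw [h2, mul_zero]
      by_contra hne
      exact hh (mul_left_cancel₀ hne (h3.symm.trans (mul_one _).symm))
  · push Not at hu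
    obtain ⟨t, ht⟩ := hu
    obtain ⟨h, hh, hh1⟩ := nontriv_of u ht
    have h0 : tr t (u t) = 0 := by
      revert ht
      generalize tr t (u t) = z
      revert z
      decide
    have hp : 1 - ∏ t, tr t (u t) = 1 := by
      rw [prod_eq_zero (f := fun t => tr t (u t)) (mem_univ t) h0, sub_zero]
    rw [hp]
    apply exists_of_norm
    set z := ∑ d ∈ D, chi u (emb d) with hz
    have h1 : z * star z = ∑ d ∈ D, ∑ d' ∈ D, chi u (emb (d - d')) := by
      rw [hz, star_sum, sum_mul_sum]
      refine sum_congr rfl fun d _ => sum_congr rfl fun d' _ => ?_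
      rw [← chi_sub, emb_sub]
    have h2 := count hD (fun g => chi u (emb g))
    have h3 : ∑ g, (if g ∈ forb k l j then 0 else chi u (emb g)) =
        (∑ g, (if g ∈ forb k l j then 0 else chi u (emb g))) * chi u (emb h) := by
      rw [sum_mul, ← Equiv.sum_comp (Equiv.addRight h)]
      refine sum_congr rfl fun x _ => ?_
      simp only [Equiv.coe_addRight, (forb k l j).add_mem_cancel_right hh, emb_add, chi_add]
      split_ifs <;> simp
    have h4 : ∑ g, (if g ∈ forb k l j then 0 else chi u (emb g)) = 0 := by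
      by_contra hne
      exact hh1 (mul_left_cancel₀ hne (h3.symm.trans (mul_one _).symm))
    rw [← h1, h4, emb_zero, chi_zero_right, hc, ← Zsqrtd.norm_eq_mul_conj] at h2
    have h5 : (z.norm : GaussianInt) = ((2 ^ (k + l) : ℤ) : GaussianInt) := by
      rw [h2]; simp
    exact_mod_cast h5

/-- The main congruence for a product of test polynomials. -/
lemma core2 (hc : D.card = 2 ^ (k + l)) (hD : IsRelDiff (forb k l j) D lam) (hn : 0 < k + l)
    (c : Fin k ⊕ Fin l ⊕ Fin j → ZMod 4 → GaussianInt) (v : Fin k ⊕ Fin l ⊕ Fin j → ℕ)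
    (γ : Grp k l j → Fin k ⊕ Fin l ⊕ Fin j → GaussianInt)
    (hγ : ∀ d t, ∑ a, c t a * ee (a * emb d t) = pp ^ v t * γ d t)
    (hv : ∑ t, v t < k + l ∨ (∑ t, v t ≤ k + l ∧
      ∃ t, ∑ a, par (c t a) = 0 ∧ ∑ a, par (c t a) * tr t a = 0)) :
    ∑ d ∈ D, ∏ t, par (γ d t) = 0 := by
  classical
  choose w hw hp using char_val hc hD hn
  have h1 : ∀ d, ∏ t, (pp ^ v t * γ d t) =
      ∑ u : Fin k ⊕ Fin l ⊕ Fin j → ZMod 4, (∏ t, c t (u t)) * chi u (emb d) := by
    intro d
    simp only [← hγ]
    have := Finset.prod_univ_sum (fun _ : Fin k ⊕ Fin l ⊕ Fin j => (univ : Finset (ZMod 4)))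
      (fun t a => c t a * ee (a * emb d t))
    rw [Fintype.piFinset_univ] at this
    rw [this]
    refine sum_congr rfl fun u _ => ?_
    rw [prod_mul_distrib]; rfl
  obtain ⟨r, hr⟩ : ∃ r, k + l = ∑ t, v t + r :=
    Nat.exists_eq_add_of_le (hv.elim le_of_lt And.left)
  have h2 : pp ^ (∑ t, v t) * ∑ d ∈ D, ∏ t, γ d t = pp ^ (∑ t, v t) *
      (pp ^ r * ∑ u : Fin k ⊕ Fin l ⊕ Fin j → ZMod 4, (∏ t, c t (u t)) * w u) := by
    calc _ = ∑ d ∈ D, ∏ t, (pp ^ v t * γ d t) := by
          rw [mul_sum]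
          refine sum_congr rfl fun d _ => ?_
          rw [prod_mul_distrib, prod_pow_eq_pow_sum]
      _ = ∑ u : Fin k ⊕ Fin l ⊕ Fin j → ZMod 4,
            (∏ t, c t (u t)) * ∑ d ∈ D, chi u (emb d) := by
          simp only [h1]
          rw [sum_comm]
          simp only [mul_sum]
      _ = _ := by
          rw [← mul_assoc, ← pow_add, ← hr, mul_sum]
          refine sum_congr rfl fun u _ => ?_
          rw [hw]; ring
  have h3 := congrArg par (mul_left_cancel₀ (pow_ne_zero _ pp_ne_zero) h2)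
  simp only [map_sum, map_prod, map_mul, map_pow, hp] at h3
  rw [h3]
  rcases hv with hv | ⟨-, m, hm1, hm2⟩
  · have h4 : par pp = 0 := by rw [par_apply]; decide
    rw [h4, zero_pow (by omega), zero_mul]
  · have h4 := Finset.prod_univ_sum (fun _ : Fin k ⊕ Fin l ⊕ Fin j => (univ : Finset (ZMod 4)))
      (fun t a => par (c t a))
    have h5 := Finset.prod_univ_sum (fun _ : Fin k ⊕ Fin l ⊕ Fin j => (univ : Finset (ZMod 4)))
      (fun t a => par (c t a) * tr t a)
    rw [Fintype.piFinset_univ] at h4 h5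
    rw [prod_eq_zero (mem_univ m) hm1] at h4
    rw [prod_eq_zero (mem_univ m) hm2] at h5
    simp only [mul_sub, mul_one, sum_sub_distrib, ← prod_mul_distrib]
    rw [← h4, ← h5, sub_self]

/-- Coefficients of the test polynomials 1, 1 + Z, 1 - Z for the coordinates of order two. -/
def c2 (b : Bool) (s : ZMod 2) (u : ZMod 4) : GaussianInt :=
  if u = 0 then 1 else if b = true ∧ u = 1 then (if s = 0 then 1 else -1) else 0

/-- Their values divided by the power of 1 + i. -/
def g2 (b : Bool) (s y : ZMod 2) : GaussianInt :=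
  if b then (if y = s then ⟨0, -1⟩ else 0) else 1

lemma c2_sum : ∀ (b : Bool) (s y : ZMod 2),
    ∑ u, c2 b s u * ee (u * dbl y) = pp ^ (if b then 2 else 0) * g2 b s y := by decide

lemma par_g2 : ∀ (b : Bool) (s y : ZMod 2), par (g2 b s y) = if b then 1 + s + y else 1 := by
  simp only [par_apply]; decide

lemma ev_eq : ∀ a : ZMod 4, ev a = 1 + (a.val : ZMod 2) := by decide

lemma hi_eq : ∀ a : ZMod 4, hi a = ((a.val / 2 : ℕ) : ZMod 2) := by decide

lemma one_one : ∀ y : ZMod 2, 1 + 1 + y = y := by decide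

lemma vanish (hc : D.card = 2 ^ (k + l)) (hD : IsRelDiff (forb k l j) D lam)
    (m : Fin k ⊕ Fin j) (S : Finset (Fin k ⊕ Fin l)) (hS : l + 2 < ∑ t ∈ S, wt k l t) :
    ∑ d ∈ D, top d m * ∏ t, (if t ∈ S then 1 else 1 + low d t) = 0 := by
  classical
  have hw : ∑ t ∈ S, wt k l t = ∑ t : Fin k, (if Sum.inl t ∈ S then 1 else 0) +
      ∑ t : Fin l, (if Sum.inr t ∈ S then 2 else 0) := by
    rw [← Fintype.sum_ite_mem S, Fintype.sum_sum_type]; rfl
  have hA : ∑ t : Fin k, (if Sum.inl t ∈ S then 1 else 0) +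
      ∑ t : Fin k, (if Sum.inl t ∈ S then 0 else 1) = k := by
    rw [← sum_add_distrib, sum_congr rfl (g := fun _ => 1) fun t _ => by split_ifs <;> rfl]
    simp
  have hB : ∑ t : Fin l, (if Sum.inr t ∈ S then 2 else 0) +
      ∑ t : Fin l, (if Sum.inr t ∈ S then 0 else 2) = 2 * l := by
    rw [← sum_add_distrib, sum_congr rfl (g := fun _ => 2) fun t _ => by split_ifs <;> rfl]
    simp [mul_comm]
  have hn : 0 < k + l := by omega
  have key := core2 hc hD hn
    (Sum.elim (fun t => cf (decide (Sum.inl t ∉ S)) (decide (Sum.inl t = m)))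
      (Sum.elim (fun t => c2 (decide (Sum.inr t ∉ S)) 0) fun t => c2 (decide (Sum.inr t = m)) 1))
    (Sum.elim (fun t => vv (decide (Sum.inl t ∉ S)) (decide (Sum.inl t = m)))
      (Sum.elim (fun t => if decide (Sum.inr t ∉ S) then 2 else 0)
        fun t => if decide (Sum.inr t = m) then 2 else 0))
    (fun d => Sum.elim (fun t => gv (decide (Sum.inl t ∉ S)) (decide (Sum.inl t = m)) (d.1 t))
      (Sum.elim (fun t => g2 (decide (Sum.inr t ∉ S)) 0 (d.2.1 t))
        fun t => g2 (decide (Sum.inr t = m)) 1 (d.2.2 t)))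
    (fun d t => by
      rcases t with t | t | t
      · exact cf_sum _ _ _
      · exact c2_sum _ _ _
      · exact c2_sum _ _ _)
    (by
      simp only [Fintype.sum_sum_type, Sum.elim_inl, Sum.elim_inr, vv, sum_add_distrib,
        decide_eq_true_eq, ite_not]
      rcases m with m | m
      · right
        refine ⟨?_, Sum.inl m, ?_, ?_⟩
        · simp only [Sum.inl.injEq, sum_ite_eq', mem_univ, if_true, reduceCtorEq, if_false,
            sum_const_zero]
          omega
        · simpa using par_cf_sum _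
        · simpa [tr] using par_cf_sum_ev _
      · left
        simp only [Sum.inr.injEq, sum_ite_eq', mem_univ, if_true, reduceCtorEq, if_false,
          sum_const_zero]
        omega)
  rw [← key]
  refine sum_congr rfl fun d _ => ?_
  simp only [Fintype.prod_sum_type, Sum.elim_inl, Sum.elim_inr, par_gv, par_g2, prod_mul_distrib,
    decide_eq_true_eq, ite_not, ev_eq, hi_eq, one_one, add_zero, low]
  rcases m with m | m
  · simp [top]; ring
  · simp [top]; ring

/-- Algebraic normal form. -/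
lemma anf {X σ : Type} [Fintype σ] [DecidableEq σ] (w : σ → ℕ) (B : ℕ) (E : Finset X)
    (lo : X → σ → ZMod 2) (hlo : Set.InjOn lo (E : Set X)) (f : X → ZMod 2)
    (h : ∀ S : Finset σ, B < ∑ t ∈ S, w t →
      ∑ d ∈ E, f d * ∏ t, (if t ∈ S then 1 else 1 + lo d t) = 0) :
    ∃ P : MvPolynomial σ (ZMod 2), P.weightedTotalDegree w ≤ B ∧
      ∀ d ∈ E, f d = MvPolynomial.eval (lo d) P := by
  classical
  refine ⟨∑ S : Finset σ, MvPolynomial.monomial (∑ t ∈ S, Finsupp.single t 1)
    (∑ d ∈ E, f d * ∏ t, (if t ∈ S then 1 else 1 + lo d t)), ?_, fun d0 hd0 => ?_⟩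
  · refine Finset.sup_le fun s hs => ?_
    obtain ⟨S, -, hS⟩ := mem_biUnion.1 (MvPolynomial.support_sum hs)
    by_contra hlt
    have h1 := mem_singleton.1 (MvPolynomial.support_monomial_subset hS)
    rw [h S (by simpa [h1, map_sum, Finsupp.weight_single] using hlt)] at hS
    simp at hS
  · have hX : ∀ t : σ, MvPolynomial.monomial (Finsupp.single t 1) (1 : ZMod 2) =
        MvPolynomial.X t := fun _ => rfl
    simp only [MvPolynomial.monomial_sum_index, hX, map_sum, map_mul, map_prod,
      MvPolynomial.eval_C, MvPolynomial.eval_X]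
    rw [sum_comm]
    have h1 : ∀ d, ∑ S : Finset σ, (f d * ∏ t, (if t ∈ S then 1 else 1 + lo d t)) *
        ∏ t ∈ S, lo d0 t = f d * ∏ t, (lo d0 t + (1 + lo d t)) := by
      intro d
      rw [prod_add, mul_sum, powerset_univ]
      refine sum_congr rfl fun S _ => ?_
      have : ∏ t, (if t ∈ S then 1 else 1 + lo d t) = ∏ t ∈ univ \ S, (1 + lo d t) := by
        rw [← Fintype.prod_ite_mem (univ \ S)]; simp
      rw [this]; ring
    simp only [h1]
    rw [sum_eq_single d0]
    · have h2 : ∀ y : ZMod 2, y + (1 + y) = 1 := by decide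
      simp [h2]
    · intro d hd hne
      obtain ⟨t, ht⟩ := Function.ne_iff.1 fun e => hne (hlo hd hd0 e)
      have h2 : ∀ y z : ZMod 2, y ≠ z → z + (1 + y) = 0 := by decide
      rw [prod_eq_zero (f := fun t => lo d0 t + (1 + lo d t)) (mem_univ t) (h2 _ _ ht), mul_zero]
    · exact fun hh => absurd hd0 hh

/-- Every coordinate of the forbidden part is a polynomial of weighted degree at most `l + 2`. -/
theorem result (k l j lam : ℕ) (D : Finset (Grp k l j)) (hc : D.card = 2 ^ (k + l))
    (hD : IsRelDiff (forb k l j) D lam) (m : Fin k ⊕ Fin j) :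
    ∃ P : MvPolynomial (Fin k ⊕ Fin l) (ZMod 2), P.weightedTotalDegree (wt k l) ≤ l + 2 ∧
      ∀ d ∈ D, top d m = MvPolynomial.eval (low d) P :=
  anf _ _ D low (low_inj hD) _ (vanish hc hD m)

end Pool.Agent.Results.MP_f5a786_co.SemiregularDegree
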